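import Mathlib
import Pool.Agent.Lib_MP_780098_nt.Near

namespace Pool.Agent.Results.MP_780098_nt.NearEquality

/-- `S(m,n) = 1^n + 2^n + ... + (m-1)^n`. -/
def powSum (m n : ℕ) : ℕ := ∑ k ∈ Finset.Ico 1 m, k ^ n

/-- The pair `(m,n)` is critical: `(1 - 1/m)^n > 1/2 > (1 - 1/(m-1))^n`
(with `m ≥ 3` and `n ≥ 1`). -/
def Critical (m n : ℕ) : Prop :=
  3 ≤ m ∧ 1 ≤ n ∧ (1 - 1 / (m : ℝ)) ^ n > 1 / 2 ∧ 1 / 2 > (1 - 1 / ((m : ℝ) - 1)) ^ n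

/-- There are infinitely many `m` for which some `n` makes `(m,n)` critical and
`S(m,n) > (1 - 2.01/m^2) m^n`. -/
theorem result :
    {m : ℕ | ∃ n : ℕ, Critical m n ∧
      (1 - 2.01 / (m : ℝ) ^ 2) * (m : ℝ) ^ n < (powSum m n : ℝ)}.Infinite := by
  rw [Set.infinite_iff_exists_gt]
  intro N
  obtain ⟨m, n, hN, h3, h1, hc1, hc2, hs⟩ := Lib_MP_780098_nt.near N
  refine ⟨m, ⟨n, ⟨h3, h1, hc1, hc2⟩, ?_⟩, hN⟩
  unfold powSum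
  push_cast
  exact hs

end Pool.Agent.Results.MP_780098_nt.NearEquality
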